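import Pool.Agent.Helper15.UL.GoalsE

/-! # MP_57a173_lc: packet POS -/

noncomputable section

namespace UL.PkPOS

open UL

theorem pos_def (y : ℕ → Bool) (n : ℕ) : pos y n = Nat.nth (fun i => y i = true) n := rfl

theorem count_res (y : ℕ → Bool) (n : ℕ) :
    (res y n).count true = Nat.count (fun i => y i = true) n := by
  induction n with
  | zero => simp [res]
  | succ n ih =>
    rw [res_succ, List.count_append, ih, Nat.count_succ]
    by_cases h : y n = true
    · simp [h]
    · simp [h]

theorem count_pre {τ : Str} {x : ℕ → Bool} (h : Pre τ x) :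
    Nat.count (fun i => x i = true) τ.length = τ.count true := by
  rw [← count_res, ← pre_iff.1 h]

theorem inf_Y (y : Y) : {i : ℕ | y i = true}.Infinite := by
  refine Set.infinite_of_forall_exists_gt fun n => ?_
  obtain ⟨m, hm, h⟩ := y.2 (n + 1)
  exact ⟨m, h, hm⟩

theorem y_pos (y : Y) (i : ℕ) : y (pos y i) = true :=
  Nat.nth_mem_of_infinite (p := fun i => y i = true) (inf_Y y) i

theorem count_pos (y : Y) (i : ℕ) : (res y (pos y i)).count true = i := by
  rw [count_res]
  exact Nat.count_nth_of_infinite (p := fun i => y i = true) (inf_Y y) i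

theorem pos_lt (y : Y) {i j : ℕ} (h : i < j) : pos y i < pos y j :=
  Nat.nth_strictMono (p := fun i => y i = true) (inf_Y y) h

theorem res_len (y : ℕ → Bool) (n : ℕ) : (res y n).length = n := by simp [res]

theorem res_pos_succ (y : Y) (i : ℕ) :
    res y (pos y i + 1) = res y (pos y i) ++ [true] := by
  rw [res_succ, y_pos]

theorem key {Λ : Str → Str} (hΛ : IsL Λ) (y : Y) {x : ℕ → Bool} (hx : ∀ j, Pre (Λ (res y j)) x)
    (i : ℕ) : pos x (i + (Λ []).count true) = (Λ (res y (pos y i))).length := by
  have h1 : (Λ (res y (pos y i))).count true = (Λ []).count true + i := by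
    rw [hΛ.count, count_pos]
  have h2 : Nat.count (fun i => x i = true) (Λ (res y (pos y i))).length =
      i + (Λ []).count true := by
    rw [count_pre (hx _), h1, add_comm]
  have h3 : Pre (Λ (res y (pos y i)) ++ [true]) x := by
    have := hx (pos y i + 1)
    rw [res_pos_succ] at this
    exact this.mono (hΛ.bit _ true)
  have h4 : x (Λ (res y (pos y i))).length = true := by
    have := h3 (Λ (res y (pos y i))).length (by simp)
    rw [← this]
    simp
  rw [pos_def, ← h2]
  exact Nat.nth_count (p := fun i => x i = true) h4

theorem res_prefix (y : ℕ → Bool) {m n : ℕ} (h : m ≤ n) : res y m <+: res y n :=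
  Pre.pfx (pre_res y m) (pre_res y n) (by rw [res_len, res_len]; exact h)

theorem thm : G_POS := by
  refine ⟨?_, ?_⟩
  · intro Λ hΛ y x hx i
    rw [key hΛ y hx i]
    have := hΛ.length_le (res y (pos y i))
    rwa [res_len] at this
  · intro Λ k f h0 hfalse htrue hf y x hx i
    have hΛ : IsL Λ := by
      intro σ b
      cases b with
      | false => exact ⟨0, by rw [hfalse]; simp [zs]⟩
      | true => exact ⟨_, htrue σ⟩
    have hc : (Λ []).count true = 0 := by
      rw [h0]
      simp [zs, List.count_replicate]
    have hk := key hΛ y hx i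
    rw [hc, add_zero] at hk
    rw [hk]
    cases i with
    | zero =>
      have h1 := (hΛ.mono' (List.nil_prefix (l := res y (pos y 0)))).length_le
      rw [h0] at h1
      have h2 : k [] ≤ (Λ (res y (pos y 0))).length := by simpa [zs] using h1
      exact (hf []).trans h2
    | succ i =>
      have h1 : res y (pos y i + 1) <+: res y (pos y (i + 1)) :=
        res_prefix y (pos_lt y (Nat.lt_succ_self i))
      have h2 := (hΛ.mono' h1).length_le
      rw [res_pos_succ, htrue] at h2
      have h3 : k (Λ (res y (pos y i)) ++ [true]) ≤ (Λ (res y (pos y (i + 1)))).length := by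
        refine le_trans ?_ h2
        simp [zs]
        omega
      have h4 := hf (Λ (res y (pos y i)) ++ [true])
      have h5 : (Λ (res y (pos y i)) ++ [true]).count true = i + 1 := by
        rw [List.count_append, hΛ.count, hc, count_pos]
        simp
      rw [h5] at h4
      exact h4.trans h3

end UL.PkPOS
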