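import Pool.Agent.Helper15.UL.GoalsA

/-! # MP_57a173_lc: packet RL4 -/

noncomputable section

namespace UL.PkRL4

open UL

variable {I : Type} [LinearOrder I]

theorem at1_append (ε : I) (s t : Str) :
    J (at1 ε s) ∘ J (at1 ε t) = J (at1 ε (s ++ t)) := by
  rw [J_comp]
  congr 1
  funext ξ
  by_cases h : ξ = ε
  · subst h
    rw [at1_same, at1_same, at1_same]
  · rw [at1_ne _ h, at1_ne _ h, at1_ne _ h]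
    rfl

theorem at1_D (ε : I) (s : Str) : ∀ ξ ∈ Set.Iio ε, at1 ε s ξ = [] :=
  fun _ hξ => at1_ne s (ne_of_lt hξ)

theorem good_comp {ε : I} {P : Bool → (Pt I → Pt I) → Prop} (hP : Her P) {b : Bool} {s : Str}
    {ψ χ : Pt I → Pt I} (hψ : IsM ψ) (hχ : MD (Set.Iio ε) χ) (h : Good ε P b s ψ) :
    Good ε P b s (ψ ∘ χ) := by
  obtain ⟨φ, h1, h2, h3⟩ := h
  have hD : IsLowerSet (Set.Iio ε) := isLowerSet_Iio ε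
  refine ⟨UL.up (Set.Iio ε) (φ ∘ χ), (h1.1.comp hχ.1).up _,
    Pure.swap hD (fun ξ hξ => q1_ne 1 (ne_of_lt hξ)) h2 hχ, ?_⟩
  have e : (ψ ∘ χ) ∘ J (at1 ε s) ∘ UL.up (Set.Iio ε) (φ ∘ χ) = (ψ ∘ J (at1 ε s) ∘ φ) ∘ χ := by
    have e1 := J_swap hD (at1_D ε s) hχ
    have e2 := UD.swap hD h1 hχ
    calc (ψ ∘ χ) ∘ J (at1 ε s) ∘ UL.up (Set.Iio ε) (φ ∘ χ)
        = ψ ∘ (χ ∘ J (at1 ε s)) ∘ UL.up (Set.Iio ε) (φ ∘ χ) := rfl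
      _ = ψ ∘ (J (at1 ε s) ∘ χ) ∘ UL.up (Set.Iio ε) (φ ∘ χ) := by rw [e1]
      _ = ψ ∘ J (at1 ε s) ∘ (χ ∘ UL.up (Set.Iio ε) (φ ∘ χ)) := rfl
      _ = ψ ∘ J (at1 ε s) ∘ (φ ∘ χ) := by rw [← e2]
      _ = (ψ ∘ J (at1 ε s) ∘ φ) ∘ χ := rfl
  rw [e]
  exact hP.her b _ _ (hψ.comp ((J_isM (at1_fin ε s)).comp h1.1)) h3 hχ.1

theorem thm (INF : G_INF) : G_RL4 := by
  intro I _ ε hFPS P hP b s ψ hψ hbad
  by_contra hcon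
  push Not at hcon
  have hD : IsLowerSet (Set.Iio ε) := isLowerSet_Iio ε
  obtain ⟨χ, hχ, -, hcov⟩ := hFPS
    (fun i χ => ∃ m, i ≤ m ∧ Good ε P b (s ++ zs m ++ [true]) (ψ ∘ χ)) (by
      intro i f hf
      obtain ⟨m, hm, hb⟩ := hcon f hf i
      unfold Bad at hb
      push Not at hb
      obtain ⟨g, hg, hG⟩ := hb
      exact ⟨g, hg, m, hm, hG⟩) (by
      intro i f g hf hQ hg
      obtain ⟨m, hm, hG⟩ := hQ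
      exact ⟨m, hm, good_comp (ψ := ψ ∘ f) hP (hψ.1.comp hf.1) hg hG⟩)
  have h0 : ∀ i, ∃ τ : ℕ → I → Str, (∀ l, (Sp (τ l)).Finite ∧ Sp (τ l) ⊆ Set.Iio ε ∧
      ∃ m, i ≤ m ∧ Good ε P b (s ++ zs m ++ [true]) (ψ ∘ (χ ∘ J (τ l)))) ∧
      ∀ z, ∃ l, z ∈ B (τ l) := fun i => (hcov i).enum
  choose τ h1 h2 using h0
  have h3 : ∀ i l, ∃ (m : ℕ) (φ : Pt I → Pt I), i ≤ m ∧ UD (Set.Iio ε) φ ∧ Pure (q1 ε 1) φ ∧
      P b ((ψ ∘ (χ ∘ J (τ i l))) ∘ J (at1 ε (s ++ zs m ++ [true])) ∘ φ) := by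
    intro i l
    obtain ⟨m, hm, φ, h4, h5, h6⟩ := (h1 i l).2.2
    exact ⟨m, φ, hm, h4, h5, h6⟩
  choose m φ hm hU hPu hPb using h3
  obtain ⟨Φ, hΦ, hΦ', A, hA, hcv⟩ := INF I ε (fun n => τ n.unpair.1 n.unpair.2)
    (fun n => m n.unpair.1 n.unpair.2) (fun n => φ n.unpair.1 n.unpair.2)
    (fun n => ⟨(h1 _ _).1, (h1 _ _).2.1⟩)
    (fun z N => by
      obtain ⟨l, hl⟩ := h2 N z
      refine ⟨Nat.pair N l, ?_, ?_⟩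
      · simp only [Nat.unpair_pair]
        exact hl
      · simp only [Nat.unpair_pair]
        exact hm N l)
    (fun n => ⟨hU _ _, hPu _ _⟩)
  refine hbad χ hχ ⟨Φ, hΦ, hΦ', ?_⟩
  refine hP.loc b _ ((hψ.1.comp hχ.1).comp ((J_isM (at1_fin ε s)).comp hΦ.1)) ?_
  refine ⟨A, Set.subset_univ _, hA, fun z => ?_⟩
  obtain ⟨ρ, hρ, hρA, hz, l, lam, hlam, heq⟩ := hcv z
  refine ⟨ρ, hρ, hρA, hz, ?_⟩
  generalize hi : l.unpair.1 = i at heq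
  generalize hj : l.unpair.2 = j at heq
  have e1 : J (at1 ε s) ∘ J (τ i j) = J (τ i j) ∘ J (at1 ε s) :=
    J_swap hD (at1_D ε s) (J_MD (h1 i j).1 (h1 i j).2.1)
  have e2 := at1_append ε s (zs (m i j) ++ [true])
  rw [← List.append_assoc] at e2
  have e : ((ψ ∘ χ) ∘ J (at1 ε s) ∘ Φ) ∘ J ρ =
      ((ψ ∘ (χ ∘ J (τ i j))) ∘ J (at1 ε (s ++ zs (m i j) ++ [true])) ∘ φ i j) ∘ J lam := by
    calc ((ψ ∘ χ) ∘ J (at1 ε s) ∘ Φ) ∘ J ρ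
        = (ψ ∘ χ) ∘ J (at1 ε s) ∘ (Φ ∘ J ρ) := rfl
      _ = (ψ ∘ χ) ∘ J (at1 ε s) ∘
          (J (τ i j) ∘ J (at1 ε (zs (m i j) ++ [true])) ∘ φ i j ∘ J lam) := by rw [heq]
      _ = (ψ ∘ χ) ∘ (J (at1 ε s) ∘ J (τ i j)) ∘
          (J (at1 ε (zs (m i j) ++ [true])) ∘ φ i j ∘ J lam) := rfl
      _ = (ψ ∘ χ) ∘ (J (τ i j) ∘ J (at1 ε s)) ∘
          (J (at1 ε (zs (m i j) ++ [true])) ∘ φ i j ∘ J lam) := by rw [e1]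
      _ = (ψ ∘ χ) ∘ J (τ i j) ∘ (J (at1 ε s) ∘ J (at1 ε (zs (m i j) ++ [true]))) ∘
          φ i j ∘ J lam := rfl
      _ = (ψ ∘ χ) ∘ J (τ i j) ∘ J (at1 ε (s ++ zs (m i j) ++ [true])) ∘
          φ i j ∘ J lam := by rw [e2]
      _ = _ := rfl
  rw [e]
  exact hP.her b _ _ (((hψ.1.comp (hχ.1.comp (J_isM (h1 i j).1)))).comp
    ((J_isM (at1_fin ε _)).comp (hU i j).1)) (hPb i j) (J_isM hlam)

end UL.PkRL4
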